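import Pool.Agent.Helper11_COV.Stmt

/-! # Squad COV (MP_8c3bb7_nt): module BKI. -/

set_option autoImplicit false

namespace Pool.Agent.COV.H34

open Finset Classical Pool.Agent.COV

lemma Phi_nonneg (l : ML) (f : ℕ → ℝ) (hf : ∀ x, 0 ≤ f x) : 0 ≤ Phi l f := by
  unfold Phi
  apply List.sum_nonneg
  intro y hy
  obtain ⟨a, -, rfl⟩ := List.mem_map.1 hy
  exact mul_nonneg (Nat.cast_nonneg _) (hf _)

lemma pt_nonneg (s : ℝ) (x : ℕ) : 0 ≤ pt s x := le_max_left _ _

lemma good_succ {c : ℕ → ℕ} {n : ℕ} {W t : ℕ → ℝ} (hn : ¬ n.Prime) (h : Good c n W t) :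
    Good c (n + 1) W t := by
  intro p hp hpp
  have : p ≠ n := by rintro rfl; exact hn hpp
  exact h p (by omega) hpp

lemma DD_succ {c : ℕ → ℕ} {n : ℕ} {ν : ℕ → ℝ} (hn : ¬ n.Prime) (f : ℕ → ℝ) :
    DD c ν (n + 1) f = DD c ν n f := by
  rw [DD, if_neg hn]

lemma DD_succ0 {c : ℕ → ℕ} {n : ℕ} {ν : ℕ → ℝ} (hn : ¬ n.Prime ∨ c n = 0) (f : ℕ → ℝ) :
    DD c ν (n + 1) f = DD c ν n f := by
  rw [DD]
  split_ifs with h
  · have h0 : c n = 0 := by
      rcases hn with h1 | h1
      · exact absurd h h1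
      · exact h1
    rw [h0]; simp
  · rfl

lemma cost_succ {c : ℕ → ℕ} {n : ℕ} {W t : ℕ → ℝ} (hn : ¬ n.Prime) :
    cost c W t (n + 1) = cost c W t n := by
  unfold cost
  rw [range_add_one, filter_insert, if_neg hn]

/-- BKI -/
theorem bki (hMLA : MlaStmt) (hMLB : MlbStmt) (hDDP : DdpStmt) : BkiStmt := by
  obtain ⟨-, A2, -, -, A5, A6⟩ := hMLA
  obtain ⟨B1, -, -⟩ := hMLB
  obtain ⟨-, -, -, D4⟩ := hDDP
  refine ⟨?_, ?_, ?_, ?_⟩
  · rintro c C n m M1 M2 T ⟨W, t, h1, h2, h3, h4, h5⟩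
    refine ⟨W, t, h1, le_rfl, le_rfl, fun s hs => ?_, h3, h4, h5⟩
    have h := mul_le_mul_of_nonneg_left (h2 s hs) (show (0 : ℝ) ≤ SC by positivity)
    have e : (SC : ℝ) * Phi m (fun x => pt s (4 * x)) +
      SC * (Phi m (pt s) - Phi m (fun x => pt s (2 * x))) +
      SC * (Phi m (fun x => pt s (2 * x)) - Phi m (fun x => pt s (4 * x)))
        = SC * Phi m (pt s) := by ring
    rw [e]; exact h
  · rintro c C n m s0 s1 M1 M2 T hn ⟨W, t, h1, h2, h3, h4, h5, h6, h7⟩
    refine ⟨W, t, good_succ hn h1, h2, h3, fun s hs => ?_, ?_, ?_, ?_⟩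
    · rw [DD_succ hn]; exact h4 s hs
    · rw [DD_succ hn]; exact h5
    · rw [DD_succ hn]; exact h6
    · rw [cost_succ hn]; exact h7
  · rintro c C n m s0 s1 M1 M2 T ⟨W, t, h1, h2, h3, h4, h5, h6, h7⟩
    refine ⟨W, t, h1, fun s hs => ?_, h5, h6, h7⟩
    have hSC : (0 : ℝ) < SC := by unfold SC; positivity
    have hSCn : 0 < SC := by unfold SC; positivity
    rw [A2, A2]
    have k1 := B1 C 1 s0 SC m s hs hSCn
    have k2 := B1 C 2 (s1 - s0) SC m s hs hSCn
    have k4 := B1 C 4 (SC - s1) SC m s hs hSCn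
    simp only [one_mul] at k1
    have e4 : ((SC - s1 : ℕ) : ℝ) = (SC : ℝ) - s1 := by
      rw [Nat.cast_sub h3]
    have e2 : (s1 : ℝ) - s0 ≤ ((s1 - s0 : ℕ) : ℝ) := by
      rcases le_total s0 s1 with h | h
      · rw [Nat.cast_sub h]
      · rw [Nat.sub_eq_zero_of_le h]
        have : (s1 : ℝ) ≤ s0 := by exact_mod_cast h
        rw [Nat.cast_zero]; linarith
    have p1 : 0 ≤ Phi m (pt s) := Phi_nonneg _ _ (fun x => pt_nonneg _ _)
    have p2 : 0 ≤ Phi m (fun x => pt s (2 * x)) := Phi_nonneg _ _ (fun x => pt_nonneg _ _)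
    have p4 : 0 ≤ Phi m (fun x => pt s (4 * x)) := Phi_nonneg _ _ (fun x => pt_nonneg _ _)
    have h := h4 s hs
    have g2 : ((s1 : ℝ) - s0) * Phi m (fun x => pt s (2 * x)) ≤
        ((s1 - s0 : ℕ) : ℝ) * Phi m (fun x => pt s (2 * x)) :=
      mul_le_mul_of_nonneg_right e2 p2
    have g : (SC : ℝ) * ((SC : ℝ) * DD c (nu W t) n (pt s)) ≤
        (SC : ℝ) * ((s0 : ℝ) / SC * Phi m (pt s) +
          (((s1 - s0 : ℕ) : ℝ) / SC * Phi m (fun x => pt s (2 * x)) +
          ((SC - s1 : ℕ) : ℝ) / SC * Phi m (fun x => pt s (4 * x)))) := by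
      have e : (SC : ℝ) * ((s0 : ℝ) / SC * Phi m (pt s) +
          (((s1 - s0 : ℕ) : ℝ) / SC * Phi m (fun x => pt s (2 * x)) +
          ((SC - s1 : ℕ) : ℝ) / SC * Phi m (fun x => pt s (4 * x)))) =
          s0 * Phi m (pt s) + ((s1 - s0 : ℕ) : ℝ) * Phi m (fun x => pt s (2 * x)) +
          ((SC - s1 : ℕ) : ℝ) * Phi m (fun x => pt s (4 * x)) := by
        field_simp
        ring
      rw [e, e4]
      linarith
    have g' := le_of_mul_le_mul_left g hSC
    linarith
  · rintro c C n m M1 M2 T hn ⟨W, t, h1, h2, h3, h4, h5⟩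
    by_cases hp : n.Prime
    · have hc : c n = 0 := by
        rcases hn with h | h
        · exact absurd hp h
        · exact h
      set W' := Function.update W n 0 with hW'
      set t' := Function.update t n 0 with ht'
      have hlt : ∀ p, p < n → W' p = W p ∧ t' p = t p := by
        intro p hpn
        exact ⟨Function.update_of_ne hpn.ne _ _, Function.update_of_ne hpn.ne _ _⟩
      have hnu : ∀ p, p < n → nu W' t' p = nu W t p := by
        intro p hpn
        unfold nu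
        rw [(hlt p hpn).1, (hlt p hpn).2]
      have hWn : W' n = 0 := Function.update_self _ _ _
      have htn : t' n = 0 := Function.update_self _ _ _
      have hDD : ∀ (k : ℕ) (f : ℕ → ℝ), k ≤ n → DD c (nu W' t') k f = DD c (nu W t) k f :=
        fun k f hk => D4 c _ _ k f (fun p hpk _ => hnu p (lt_of_lt_of_le hpk hk))
      have hcost : cost c W' t' (n + 1) = cost c W t n := by
        unfold cost
        rw [range_add_one, filter_insert, if_pos hp, sum_insert (by simp), hWn]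
        rw [zero_div, zero_mul, zero_add]
        apply sum_congr rfl
        intro p hpm
        have hpn : p < n := mem_range.1 (mem_filter.1 hpm).1
        rw [(hlt p hpn).1, (hlt p hpn).2, hDD p _ hpn.le]
      refine ⟨W', t', ?_, fun s hs => ?_, ?_, ?_, ?_⟩
      · intro p hpn hpp
        rcases eq_or_ne p n with rfl | hne
        · rw [hWn, htn]
          refine ⟨?_, le_rfl, by norm_num, ?_⟩
          · unfold wt; rw [hc]; simp
          · norm_num
            exact hpp.one_lt.le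
        · have hpn' : p < n := by omega
          rw [(hlt p hpn').1, (hlt p hpn').2]
          exact h1 p hpn' hpp
      · rw [DD_succ0 (Or.inr hc), hDD n _ le_rfl]; exact h2 s hs
      · rw [DD_succ0 (Or.inr hc), hDD n _ le_rfl]; exact h3
      · rw [DD_succ0 (Or.inr hc), hDD n _ le_rfl]; exact h4
      · rw [hcost]; exact h5
    · refine ⟨W, t, good_succ hp h1, fun s hs => ?_, ?_, ?_, ?_⟩
      · rw [DD_succ hp]; exact h2 s hs
      · rw [DD_succ hp]; exact h3
      · rw [DD_succ hp]; exact h4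
      · rw [cost_succ hp]; exact h5

end Pool.Agent.COV.H34
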