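import Pool.Agent.Helper11_COV.Stmt

/-! # Squad COV (MP_8c3bb7_nt): modules CRT and PTW. -/

set_option autoImplicit false

namespace Pool.Agent.COV.H34

open Finset Classical Pool.Agent.COV

/-- CRT -/
theorem crt : CrtStmt := by
  intro c x N
  obtain ⟨k, hk⟩ := Nat.chineseRemainderOfFinset (ι := ℕ) x (fun p => p ^ c p)
    ((range N).filter Nat.Prime)
    (fun p hp => pow_ne_zero _ (mem_filter.1 hp).2.ne_zero)
    (by
      intro p hp q hq hpq
      have h1 : p.Prime := (mem_filter.1 (Finset.mem_coe.1 hp)).2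
      have h2 : q.Prime := (mem_filter.1 (Finset.mem_coe.1 hq)).2
      exact Nat.Coprime.pow _ _ ((Nat.coprime_primes h1 h2).2 hpq))
  refine ⟨(k : ℤ), fun p hp hpp => ?_⟩
  exact (Int.natCast_modEq_iff).2 (hk p (mem_filter.2 ⟨mem_range.2 hp, hpp⟩))

/-- PTW -/
theorem ptw (hcrt : CrtStmt) : PtwStmt := by
  intro X N r h1 hN hc hr x
  obtain ⟨n, hn⟩ := hcrt X.c x N
  have key : (X.S.filter (fun d : ℕ => n ≡ X.a d [ZMOD (d : ℤ)])) ⊆
      ((range N).filter Nat.Prime).biUnion
        (fun k => (LS X.S k).filter (fun d => BX X.a (k + 1) d x)) := by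
    intro d hd
    obtain ⟨hdS, hda⟩ := mem_filter.1 hd
    have hd1 := h1 d hdS
    have hne : d.primeFactors.Nonempty := Nat.nonempty_primeFactors.2 hd1
    set k := d.primeFactors.max' hne with hk
    have hkm : k ∈ d.primeFactors := max'_mem _ _
    have hkp : k.Prime := Nat.prime_of_mem_primeFactors hkm
    have hkd : k ∣ d := Nat.dvd_of_mem_primeFactors hkm
    have hkN : k < N := hN d hdS k hkp hkd
    refine mem_biUnion.2 ⟨k, mem_filter.2 ⟨mem_range.2 hkN, hkp⟩, mem_filter.2 ⟨?_, ?_⟩⟩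
    · exact mem_filter.2 ⟨hdS, hkm, fun p hp => le_max' _ _ hp⟩
    · intro p hp _
      have hpp : p.Prime := Nat.prime_of_mem_primeFactors hp
      have hpd : p ∣ d := Nat.dvd_of_mem_primeFactors hp
      have hpN : p < N := hN d hdS p hpp hpd
      have e1 : n ≡ (x p : ℤ) [ZMOD ((p ^ d.factorization p : ℕ) : ℤ)] := by
        refine (hn p hpN hpp).of_dvd ?_
        exact_mod_cast pow_dvd_pow p (hc d hdS p)
      have e2 : n ≡ X.a d [ZMOD ((p ^ d.factorization p : ℕ) : ℤ)] := by
        refine hda.of_dvd ?_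
        exact_mod_cast Nat.ordProj_dvd d p
      exact e1.symm.trans e2
  have h2 : r ≤ ∑ k ∈ (range N).filter Nat.Prime, cn X k x := by
    refine (hr n).trans ((card_le_card key).trans ?_)
    exact card_biUnion_le
  calc (r : ℝ) ≤ ((∑ k ∈ (range N).filter Nat.Prime, cn X k x : ℕ) : ℝ) := by exact_mod_cast h2
    _ = ∑ k ∈ (range N).filter Nat.Prime, (cn X k x : ℝ) := by push_cast; rfl

end Pool.Agent.COV.H34
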