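import Pool.Agent.COV.StmtsB

set_option autoImplicit false

/-!
# Row HTR (MP_160b6c_nt, squad COV)
-/

namespace Pool.Agent.COV.H34

open Polynomial Pool.Agent.KDT.Z

theorem htr (h1 : HgrStmt) (h2 : HreStmt) (h3 : HsaStmt) (h4 : GhiStmt) (h5 : GnlStmt)
    (h6 : TrdStatement) (h7 : SbgStatement) (h8 : CmaStatement) (h9 : EmbStatement) : HtrStmt := by
  intro n
  obtain ⟨n', hn'⟩ := h6 n
  refine ⟨n', ?_⟩
  intro k U _ _ _ f g J _ th cl act Jk q H0 t0 hc Φ hΦ0 hΦn hΦz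
  have hjk := hc.jk
  have hjg : JG g J th cl := hjk.toJG
  haveI := hc.env.oc
  haveI : CharZero U := by
    haveI := hc.env.ch
    exact charZero_of_injective_algebraMap (algebraMap k U).injective
  obtain ⟨H, hmem, hact, hle, hq1, hqk⟩ := h1 k U f g J th cl act Jk q H0 t0 hc
  obtain ⟨gand, _, gneg, ginf⟩ := h5 U g J th cl hjg H0
  have e1 := h3 k U f g J th cl act Jk q H0 t0 hc
  have e2 : Gn th H0 fun h => Good g cl (- cl (emb U t0) + h) q := by
    obtain ⟨C, hC⟩ := h4 U g J th cl hjg (- cl (emb U t0)) q hc.on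
    exact ⟨C, fun h _ hh => hC h hh⟩
  have e3 := gneg _ e2
  have e4 := (ginf hc.inf _ (gand _ _ e1 e3)).nonempty
  obtain ⟨a, haH, ⟨t, htf, _, hta⟩, q', hq', hq'c, hrr, hro⟩ := e4
  have hE := h9 k U f g hc.env.gm
  have htg : On g (emb U t) := ((hE t t).2.2.2.1).2 htf
  have hnf : On f (ngv t) := (hE t t).2.2.2.2.2.2 htf
  have hng : On g (emb U (ngv t)) := ((hE t (ngv t)).2.2.2.1).2 hnf
  have hcn : cl (emb U (ngv t)) = - cl (emb U t) := by
    have := (hjg.cl_ngv (emb U t) htg).2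
    rw [(hE t t).2.2.2.2.2.1] at this
    exact this
  have hqq : q' = emb U (ngv t) := by
    apply hjg.cl_inj _ _ hq' hng
    rw [hcn, hta, ← hq'c]
    abel
  rw [hqq] at hrr hro
  have hrr' : rr q (emb U (ngv t)) ≠ 0 := by
    rw [(h8.1 U q (emb U (ngv t))).1]; exact hrr
  have hro' : ro q (emb U (ngv t)) ≠ 0 := by
    rw [(h8.1 U q (emb U (ngv t))).2]; exact hro
  obtain ⟨hon, hcl⟩ := hjg.comp q (emb U (ngv t)) hc.on hng hrr' hro'
  obtain ⟨_, Φ', hΦi, hΦd, hΦz'⟩ := hn' k U f g hc.env J th cl act Jk hjk q Φ hc.on hc.gn hΦ0 hΦn hΦz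
    (ngv t) hnf hrr' hro'
  have htk : cl (emb U t) ∈ Jk := (hjk.mem_k _).2 (Or.inr (Or.inr ⟨t, htf, htg, rfl⟩))
  have hot : On g (emb U t0) := ((hE t0 t0).2.2.2.1).2 hc.ot
  have ht0k : cl (emb U t0) ∈ Jk := (hjk.mem_k _).2 (Or.inr (Or.inr ⟨t0, hc.ot, hot, rfl⟩))
  have hcl' : cl (cmp (g.coeff 4) q (emb U (ngv t))) = cl q - cl (emb U t0) - a := by
    rw [← hcl, hcn, hta]; abel
  refine ⟨H, ngv t, Φ', hnf, hrr', hro', hΦi.ne_zero, hΦd, hΦz', ?_, ?_, hact, ?_⟩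
  · rw [hcl']
    exact H.sub_mem hq1 (hle haH)
  · intro hk
    apply hqk
    have : cl q = cl (cmp (g.coeff 4) q (emb U (ngv t))) + cl (emb U t) := by
      rw [← hcl, hcn]; abel
    rw [this]
    exact Jk.add_mem hk htk
  · intro c hcH hck
    obtain ⟨σ, b, hb, hcb⟩ := h2 k U f g J th cl act Jk q H0 t0 hc c ((hmem c).1 hcH) hck
    have hab : a - b ∈ H0 := H0.sub_mem haH hb
    obtain ⟨_, τ, hτ⟩ := (hc.h0 (a - b)).1 hab
    have hak : a ∈ Jk := ((hc.h0 a).1 haH).1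
    have hbk : b ∈ Jk := ((hc.h0 b).1 hb).1
    have hmul := (h7 k U f g hc.env J th cl act Jk hjk).1
    refine ⟨σ * τ, ?_⟩
    have s1 : act τ (cl q - cl (emb U t0) - a) = cl q - cl (emb U t0) - b := by
      rw [map_sub (act τ) (cl q - cl (emb U t0)) a, map_sub (act τ) (cl q) (cl (emb U t0)), hτ,
        hjk.act_k τ _ ht0k, hjk.act_k τ _ hak]
      abel
    have s2 : act σ (cl q - cl (emb U t0) - b) = act σ (cl q) - cl (emb U t0) - b := by
      rw [map_sub (act σ) (cl q - cl (emb U t0)) b, map_sub (act σ) (cl q) (cl (emb U t0)),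
        hjk.act_k σ _ ht0k, hjk.act_k σ _ hbk]
    rw [hmul, hcl', s1, s2, hcb]

end Pool.Agent.COV.H34
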